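import Mathlib

namespace Pool.Agent.Results.MP_3ca1b2_co.Gap

open Equiv

/-- A finite loopless graph.  Parallel edges are allowed, loops are not.  Each edge has two
endpoints `src e ≠ tgt e` (the naming of the endpoints is arbitrary). -/
structure Gr where
  V : Type
  E : Type
  finV : Finite V
  finE : Finite E
  src : E → V
  tgt : E → V
  loopless : ∀ e, src e ≠ tgt e

/-- The arcs of `G`: every edge gives two opposite arcs. -/
abbrev Gr.Arc (G : Gr) : Type := G.E × Bool

/-- The opposite arc. -/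
def Gr.opp (G : Gr) (a : G.Arc) : G.Arc := (a.1, !a.2)

/-- The tail of an arc. -/
def Gr.tail (G : Gr) (a : G.Arc) : G.V := if a.2 then G.tgt a.1 else G.src a.1

/-- The head of an arc. -/
def Gr.head (G : Gr) (a : G.Arc) : G.V := if a.2 then G.src a.1 else G.tgt a.1

/-- `σ` is an `S`-signature of `G`. -/
def IsSignature (S : Set (Perm ℕ)) (G : Gr) (σ : G.Arc → Perm ℕ) : Prop :=
  (∀ a, σ a ∈ S) ∧ ∀ a, σ (G.opp a) = (σ a)⁻¹

/-- `(G, σ)` has a `j`-colouring (colours `1, …, j`). -/
def Colourable (G : Gr) (σ : G.Arc → Perm ℕ) (j : ℕ) : Prop :=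
  ∃ c : G.V → ℕ, (∀ v, 1 ≤ c v ∧ c v ≤ j) ∧ ∀ a : G.Arc, σ a (c (G.tail a)) ≠ c (G.head a)

/-- `n` is the chromatic number of `(G, σ)`. -/
def IsChromaticNumber (G : Gr) (σ : G.Arc → Perm ℕ) (n : ℕ) : Prop :=
  IsLeast {j | Colourable G σ j} n

/-- The `S`-chromatic spectrum of `G`. -/
def spectrum (S : Set (Perm ℕ)) (G : Gr) : Set ℕ :=
  {n | ∃ σ : G.Arc → Perm ℕ, IsSignature S G σ ∧ IsChromaticNumber G σ n}

/-- `S` is a nonempty inverse-closed set of permutations of `{1, …, k}` (regarded as permutations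
of `ℕ` fixing `0` and every integer `> k`). -/
def Admissible (k : ℕ) (S : Set (Perm ℕ)) : Prop :=
  S.Nonempty ∧ (∀ π ∈ S, π⁻¹ ∈ S) ∧ ∀ π ∈ S, ∀ i, (i = 0 ∨ k < i) → π i = i

/-- the 3-cycle `1 → 2 → 3 → 1` -/
def rot : Perm ℕ := swap 1 2 * swap 2 3

/-- the three rotations of `{1,2,3}` -/
def A3 : Set (Perm ℕ) := {1, rot, rot⁻¹}

/-- two vertices joined by three parallel edges -/
def theta : Gr where
  V := Bool
  E := Fin 3
  finV := inferInstance
  finE := inferInstance
  src := fun _ => false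
  tgt := fun _ => true
  loopless := fun _ => by decide

lemma rot1 : rot 1 = 2 := by decide
lemma rot2 : rot 2 = 3 := by decide
lemma rot3 : rot 3 = 1 := by decide
lemma rot4 : rot 4 = 4 := by decide
lemma rinv1 : rot⁻¹ 1 = 3 := by rw [Perm.inv_eq_iff_eq]; exact rot3.symm
lemma rinv2 : rot⁻¹ 2 = 1 := by rw [Perm.inv_eq_iff_eq]; exact rot1.symm
lemma rinv3 : rot⁻¹ 3 = 2 := by rw [Perm.inv_eq_iff_eq]; exact rot2.symm
lemma rinv4 : rot⁻¹ 4 = 4 := by rw [Perm.inv_eq_iff_eq]; exact rot4.symm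

lemma rot_fix (i : ℕ) (h : i = 0 ∨ 3 < i) : rot i = i := by
  have h1 : i ≠ 1 := by omega
  have h2 : i ≠ 2 := by omega
  have h3 : i ≠ 3 := by omega
  simp [rot, swap_apply_of_ne_of_ne h2 h3, swap_apply_of_ne_of_ne h1 h2]

lemma admissible : Admissible 3 A3 := by
  refine ⟨⟨1, by simp [A3]⟩, ?_, ?_⟩
  · rintro π (rfl | rfl | rfl) <;> simp [A3]
  · rintro π (rfl | rfl | rfl) i hi
    · rfl
    · exact rot_fix i hi
    · rw [Perm.inv_eq_iff_eq]; exact (rot_fix i hi).symm

/-- colourings of `theta` are pairs of colours -/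
lemma colourable_iff (σ : theta.Arc → Perm ℕ) (hσ : IsSignature A3 theta σ) (j : ℕ) :
    Colourable theta σ j ↔
      ∃ x y : ℕ, (1 ≤ x ∧ x ≤ j) ∧ (1 ≤ y ∧ y ≤ j) ∧ ∀ i : Fin 3, σ (i, false) x ≠ y := by
  constructor
  · rintro ⟨c, hc, h⟩
    exact ⟨c false, c true, hc _, hc _, fun i => h (i, false)⟩
  · rintro ⟨x, y, hx, hy, h⟩
    refine ⟨fun b : Bool => cond b y x, ?_, ?_⟩
    · intro b
      change 1 ≤ cond b y x ∧ cond b y x ≤ j
      cases b
      · exact hx
      · exact hy
    · rintro ⟨i, b⟩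
      cases b
      · exact h i
      · have h2 : σ (i, true) = (σ (i, false))⁻¹ := hσ.2 (i, false)
        intro h3
        rw [h2] at h3
        change (σ (i, false))⁻¹ y = x at h3
        rw [Perm.inv_eq_iff_eq] at h3
        exact h i h3.symm

/-- the signature with prescribed forward labels -/
def sig (f : Fin 3 → Perm ℕ) : theta.Arc → Perm ℕ := fun a => if a.2 then (f a.1)⁻¹ else f a.1

lemma sig_ok (f : Fin 3 → Perm ℕ) (hf : ∀ i, f i ∈ A3) : IsSignature A3 theta (sig f) := by
  refine ⟨?_, ?_⟩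
  · rintro ⟨i, b⟩
    cases b
    · exact hf i
    · exact admissible.2.1 _ (hf i)
  · rintro ⟨i, b⟩
    cases b <;> simp [sig, Gr.opp]

lemma least (σ : theta.Arc → Perm ℕ) (hσ : IsSignature A3 theta σ) :
    ((∀ i : Fin 3, σ (i, false) ≠ 1) ∧ IsChromaticNumber theta σ 1) ∨
    ((∃ i : Fin 3, σ (i, false) = 1) ∧
      ((∀ i : Fin 3, σ (i, false) ≠ rot) ∨ (∀ i : Fin 3, σ (i, false) ≠ rot⁻¹)) ∧
      IsChromaticNumber theta σ 2) ∨
    ((∃ i : Fin 3, σ (i, false) = 1) ∧ (∃ i : Fin 3, σ (i, false) = rot) ∧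
      (∃ i : Fin 3, σ (i, false) = rot⁻¹) ∧ IsChromaticNumber theta σ 4) := by
  have hmem : ∀ i : Fin 3, σ (i, false) = 1 ∨ σ (i, false) = rot ∨ σ (i, false) = rot⁻¹ :=
    fun i => hσ.1 (i, false)
  by_cases h1 : ∀ i : Fin 3, σ (i, false) ≠ 1
  · left
    refine ⟨h1, ?_, ?_⟩
    · show Colourable theta σ 1
      rw [colourable_iff σ hσ]
      refine ⟨1, 1, by omega, by omega, fun i => ?_⟩
      rcases hmem i with h | h | h
      · exact absurd h (h1 i)
      · rw [h, rot1]; decide
      · rw [h, rinv1]; decide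
    · intro j hj
      have hj' : Colourable theta σ j := hj
      rw [colourable_iff σ hσ] at hj'
      obtain ⟨x, y, hx, -, -⟩ := hj'
      omega
  · push Not at h1
    obtain ⟨i1, hi1⟩ := h1
    right
    by_cases h2 : (∀ i : Fin 3, σ (i, false) ≠ rot) ∨ (∀ i : Fin 3, σ (i, false) ≠ rot⁻¹)
    · left
      refine ⟨⟨i1, hi1⟩, h2, ?_, ?_⟩
      · show Colourable theta σ 2
        rw [colourable_iff σ hσ]
        rcases h2 with h2 | h2
        · refine ⟨1, 2, by omega, by omega, fun i => ?_⟩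
          rcases hmem i with h | h | h
          · rw [h]; decide
          · exact absurd h (h2 i)
          · rw [h, rinv1]; decide
        · refine ⟨2, 1, by omega, by omega, fun i => ?_⟩
          rcases hmem i with h | h | h
          · rw [h]; decide
          · rw [h, rot2]; decide
          · exact absurd h (h2 i)
      · intro j hj
        have hj' : Colourable theta σ j := hj
        rw [colourable_iff σ hσ] at hj'
        obtain ⟨x, y, hx, hy, h⟩ := hj'
        by_contra hlt
        have hx1 : x = 1 := by omega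
        have hy1 : y = 1 := by omega
        apply h i1
        rw [hi1, hx1, hy1]; rfl
    · right
      push Not at h2
      obtain ⟨⟨i2, hi2⟩, ⟨i3, hi3⟩⟩ := h2
      refine ⟨⟨i1, hi1⟩, ⟨i2, hi2⟩, ⟨i3, hi3⟩, ?_, ?_⟩
      · show Colourable theta σ 4
        rw [colourable_iff σ hσ]
        refine ⟨4, 1, by omega, by omega, fun i => ?_⟩
        rcases hmem i with h | h | h
        · rw [h]; decide
        · rw [h, rot4]; decide
        · rw [h, rinv4]; decide
      · intro j hj
        have hj' : Colourable theta σ j := hj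
        rw [colourable_iff σ hσ] at hj'
        obtain ⟨x, y, hx, hy, h⟩ := hj'
        by_contra hlt
        have e1 := h i1
        have e2 := h i2
        have e3 := h i3
        rw [hi1, Perm.one_apply] at e1
        rw [hi2] at e2
        rw [hi3] at e3
        have hx3 : x = 1 ∨ x = 2 ∨ x = 3 := by omega
        rcases hx3 with rfl | rfl | rfl
        · rw [rot1] at e2; rw [rinv1] at e3; omega
        · rw [rot2] at e2; rw [rinv2] at e3; omega
        · rw [rot3] at e2; rw [rinv3] at e3; omega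

lemma rot_ne_one : rot ≠ 1 := by
  intro h; have := rot1; rw [h] at this; exact absurd this (by decide)

lemma rinv_ne_one : rot⁻¹ ≠ 1 := by
  intro h; exact rot_ne_one (inv_eq_one.mp h)

lemma spectrum_eq : spectrum A3 theta = {1, 2, 4} := by
  ext n
  constructor
  · rintro ⟨σ, hσ, hn⟩
    rcases least σ hσ with ⟨-, h⟩ | ⟨-, -, h⟩ | ⟨-, -, -, h⟩
    · left; exact hn.unique h
    · right; left; exact hn.unique h
    · right; right; exact hn.unique h
  · rintro (rfl | rfl | rfl)
    · have hok : IsSignature A3 theta (sig fun _ => rot) := sig_ok _ fun _ => by simp [A3]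
      refine ⟨_, hok, ?_⟩
      rcases least _ hok with ⟨-, h⟩ | ⟨⟨i, hi⟩, -, h⟩ | ⟨⟨i, hi⟩, -, -, h⟩
      · exact h
      · exact absurd hi rot_ne_one
      · exact absurd hi rot_ne_one
    · have hok : IsSignature A3 theta (sig fun _ => 1) := sig_ok _ fun _ => by simp [A3]
      refine ⟨_, hok, ?_⟩
      rcases least _ hok with ⟨h1, h⟩ | ⟨-, -, h⟩ | ⟨-, ⟨i, hi⟩, -, h⟩
      · exact absurd rfl (h1 0)
      · exact h
      · exact absurd hi.symm rot_ne_one
    · have hok : IsSignature A3 theta (sig ![1, rot, rot⁻¹]) :=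
        sig_ok _ fun i => by fin_cases i <;> simp [A3]
      refine ⟨_, hok, ?_⟩
      rcases least _ hok with ⟨h1, h⟩ | ⟨-, h2, h⟩ | ⟨-, -, -, h⟩
      · exact absurd rfl (h1 0)
      · rcases h2 with h2 | h2
        · exact absurd rfl (h2 1)
        · exact absurd rfl (h2 2)
      · exact h

/-- There are `k = 3`, a nonempty inverse-closed `S ⊆ S_3` and a finite loopless graph `G` (with
parallel edges) whose `S`-chromatic spectrum is `{1, 2, 4}`, hence not an interval. -/
theorem result :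
    ∃ (k : ℕ) (S : Set (Perm ℕ)) (G : Gr), Admissible k S ∧ spectrum S G = {1, 2, 4} ∧
      ∃ a b c : ℕ, a < b ∧ b < c ∧ a ∈ spectrum S G ∧ c ∈ spectrum S G ∧ b ∉ spectrum S G := by
  refine ⟨3, A3, theta, admissible, spectrum_eq, 2, 3, 4, by norm_num, by norm_num, ?_, ?_, ?_⟩
  · rw [spectrum_eq]; simp
  · rw [spectrum_eq]; simp
  · rw [spectrum_eq]; simp

end Pool.Agent.Results.MP_3ca1b2_co.Gap
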